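import Pool.Agent.Helper69.QG.St2

/-! # Project QD, part C, module FLC: continuity of equivariant maps -/

open Complex Set Metric
open scoped ComplexConjugate

namespace Pool.Agent.Helper16.QG

open Pool.Agent.Helper69.QG

private theorem image_cont {Y : Type} [TopologicalSpace Y] (r : Ev →* Equiv.Perm Y) (F : DD → Y)
    (hr : ∀ w, Continuous (r w)) (hF : ∀ (w : Ev) (z : DD), F (act (w : W) z) = r w (F z))
    (hact : ∀ w : W, Continuous (act w)) (v : Ev) (T : Set DD) (hT : ContinuousOn F T) :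
    ContinuousOn F (act (v : W) '' T) := by
  have h1 : MapsTo (act ((v : W)⁻¹)) (act (v : W) '' T) T := by
    rintro _ ⟨z, hz, rfl⟩
    have : act ((v : W)⁻¹) (act (v : W) z) = z := by
      rw [← Equiv.Perm.mul_apply, ← map_mul, inv_mul_cancel, map_one, Equiv.Perm.one_apply]
    rwa [this]
  have h2 : ContinuousOn (fun y => r v (F (act ((v : W)⁻¹) y))) (act (v : W) '' T) :=
    (hr v).comp_continuousOn (hT.comp (hact _).continuousOn h1)
  refine h2.congr fun y _ => ?_
  have h3 : act (v : W) (act ((v : W)⁻¹) y) = y := by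
    rw [← Equiv.Perm.mul_apply, ← map_mul, mul_inv_cancel, map_one, Equiv.Perm.one_apply]
  show F y = r v (F (act ((v : W)⁻¹) y))
  rw [← hF v, h3]

theorem cFLC (pbd : St_PBD) (cvr : St_CVR) (lfn : St_LFN) (cta : St_CTA) (evl : St_EVL) :
    St_FLC := by
  intro Y _ r F hr h0 h1 hF
  have hact := cta.1
  have hPc : IsCompact Pc := pbd.2.2.2.1
  refine LocallyFinite.continuous (f := fun w : W => act w '' Pc) ?_ ?_ ?_ ?_
  · intro x
    have hx : ‖(x : ℂ)‖ < 1 := mem_ball_zero_iff.1 x.2
    obtain ⟨ρ, hρ1, hρ2⟩ := exists_between hx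
    refine ⟨{z : DD | ‖(z : ℂ)‖ < ρ}, ?_, ?_⟩
    · exact (isOpen_lt (continuous_norm.comp continuous_subtype_val) continuous_const).mem_nhds hρ1
    · refine (lfn ρ hρ2).subset ?_
      rintro w ⟨_, ⟨z, hz, rfl⟩, hz2⟩
      exact ⟨z, hz, le_of_lt hz2⟩
  · refine eq_univ_of_forall fun z => ?_
    obtain ⟨w, hw⟩ := cvr z
    refine mem_iUnion.2 ⟨w⁻¹, act w z, hw, ?_⟩
    rw [← Equiv.Perm.mul_apply, ← map_mul, inv_mul_cancel, map_one, Equiv.Perm.one_apply]
  · intro w
    exact (hPc.image (hact w)).isClosed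
  · intro w
    rcases evl.2.2.2.1 w with hw | hw
    · exact image_cont r F hr hF hact ⟨w, hw⟩ Pc h0
    · have h2 := image_cont r F hr hF hact ⟨w * gen 0, hw⟩ _ h1
      have h3 : gen 0 * gen 0 = 1 := cs.simple_mul_simple_self 0
      have h4 : act (w * gen 0) '' (act (gen 0) '' Pc) = act w '' Pc := by
        rw [image_image]
        refine image_congr fun z _ => ?_
        rw [← Equiv.Perm.mul_apply, ← map_mul, mul_assoc, h3, mul_one]
      rw [← h4]
      exact h2

end Pool.Agent.Helper16.QG
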